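import Pool.Agent.H.MP_36cdb9_an.U.Defs

set_option autoImplicit false

namespace Pool.Agent.H.MP_36cdb9_an.U

/-- M7: non-dentability passes to a subset with the same closed convex hull. -/
theorem nonDentable_of_subset {E : Type*} [NormedAddCommGroup E] [NormedSpace ℝ E]
    (A A₁ : Set E) (hsub : A₁ ⊆ A) (hne : A.Nonempty) (R : ℝ) (hbd : ∀ f ∈ A, ‖f‖ ≤ R)
    (hhull : A ⊆ closure (convexHull ℝ A₁)) (ε : ℝ) (hε : 0 < ε)
    (h : ∀ f ∈ A, f ∈ closure (convexHull ℝ (A \ Metric.ball f ε))) :
    ∀ f ∈ A₁, f ∈ closure (convexHull ℝ (A₁ \ Metric.ball f (ε / 4))) := by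
  intro f hf
  by_contra hcon
  have hR0 : 0 ≤ R := (norm_nonneg _).trans (hbd f (hsub hf))
  -- a general principle: a subset of `A` contained in a ball of radius `ε/2` cannot be cut by
  -- a closed convex set
  have hmain : ∀ C : Set E, Convex ℝ C → IsClosed C → ∀ g ∈ A, g ∉ C →
      (∀ g' ∈ A, g' ∉ C → dist g' f < ε / 2) → False := by
    intro C hC hCc g hgA hgC hgall
    have h1 : A \ Metric.ball g ε ⊆ C := by
      rintro g' ⟨hg'A, hg'⟩
      by_contra hg'C
      apply hg'
      rw [Metric.mem_ball]
      have h2 := hgall g' hg'A hg'C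
      have h3 := hgall g hgA hgC
      calc dist g' g ≤ dist g' f + dist f g := dist_triangle _ _ _
        _ = dist g' f + dist g f := by rw [dist_comm f g]
        _ < ε := by linarith
    exact hgC (closure_minimal (convexHull_min h1 hC) hCc (h g hgA))
  rcases (A₁ \ Metric.ball f (ε / 4)).eq_empty_or_nonempty with hB | hB
  · have h1 : A₁ ⊆ Metric.closedBall f (ε / 4) := by
      intro a ha
      by_contra hna
      have : a ∈ A₁ \ Metric.ball f (ε / 4) :=
        ⟨ha, fun hb => hna (Metric.ball_subset_closedBall hb)⟩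
      rw [hB] at this
      exact this
    obtain ⟨g, hg⟩ := hne
    refine hmain ∅ convex_empty isClosed_empty g hg (Set.notMem_empty _) ?_
    intro g' hg' _
    have : g' ∈ Metric.closedBall f (ε / 4) :=
      closure_minimal (convexHull_min h1 (convex_closedBall _ _)) Metric.isClosed_closedBall
        (hhull hg')
    rw [Metric.mem_closedBall] at this
    linarith
  · obtain ⟨F, u, hu1, hu2⟩ := geometric_hahn_banach_closed_point
      (convex_convexHull ℝ (A₁ \ Metric.ball f (ε / 4))).closure isClosed_closure hcon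
    -- the supremum of `F` over `A₁`
    have hbdd : BddAbove (F '' A₁) := by
      refine ⟨‖F‖ * R, ?_⟩
      rintro _ ⟨a, ha, rfl⟩
      calc F a ≤ ‖F a‖ := le_abs_self _
        _ ≤ ‖F‖ * ‖a‖ := F.le_opNorm a
        _ ≤ ‖F‖ * R := by gcongr; exact hbd a (hsub ha)
    set M : ℝ := sSup (F '' A₁) with hM
    have hMle : ∀ a ∈ A₁, F a ≤ M := fun a ha => le_csSup hbdd ⟨a, ha, rfl⟩
    have huM : u < M := lt_of_lt_of_le hu2 (hMle f hf)
    have hMhull : ∀ p ∈ convexHull ℝ A₁, F p ≤ M := by
      intro p hp
      have h1 : convexHull ℝ A₁ ⊆ {p | F p ≤ M} :=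
        convexHull_min hMle (convex_halfSpace_le F.toLinearMap.isLinear M)
      exact h1 hp
    -- constants
    set lam : ℝ := min (1 / 2) (ε / (16 * (R + 1))) with hlam
    have hlam0 : 0 < lam := by rw [hlam]; positivity
    have hlam1 : lam ≤ ε / (16 * (R + 1)) := min_le_right _ _
    set δ : ℝ := lam * (M - u) / 2 with hδ
    have hδ0 : 0 < δ := by
      rw [hδ]; have : 0 < M - u := by linarith
      positivity
    set δ' : ℝ := min (ε / 16) (δ / (‖F‖ + 1)) with hδ'
    have hδ'0 : 0 < δ' := by rw [hδ']; positivity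
    have hδ'1 : δ' ≤ ε / 16 := min_le_left _ _
    have hδ'2 : ‖F‖ * δ' ≤ δ := by
      calc ‖F‖ * δ' ≤ (‖F‖ + 1) * (δ / (‖F‖ + 1)) := by
            apply mul_le_mul (by linarith) (min_le_right _ _) hδ'0.le (by positivity)
        _ = δ := by field_simp
    -- points of `A` with large `F` are close to `f`
    have hclose : ∀ g ∈ A, g ∉ {p | F p ≤ M - δ} → dist g f < ε / 2 := by
      intro g hgA hg
      have hg' : M - δ < F g := not_le.1 hg
      obtain ⟨p, hp, hpg⟩ := Metric.mem_closure_iff.1 (hhull hgA) δ' hδ'0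
      have hFp : M - 2 * δ < F p := by
        have h1 : |F g - F p| ≤ ‖F‖ * ‖g - p‖ := by
          rw [← map_sub]; exact F.le_opNorm _
        have h2 : ‖F‖ * ‖g - p‖ ≤ ‖F‖ * δ' := by
          rw [← dist_eq_norm]; gcongr
        have := (abs_le.1 (h1.trans (h2.trans hδ'2))).2
        linarith
      have hpf : dist p f ≤ ε / 4 + lam * (2 * R) := by
        rcases (A₁ ∩ Metric.ball f (ε / 4)).eq_empty_or_nonempty with hB0 | hB0
        · exfalso
          have : f ∈ A₁ ∩ Metric.ball f (ε / 4) := ⟨hf, Metric.mem_ball_self (by positivity)⟩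
          rw [hB0] at this
          exact this
        · have hp' : p ∈ convexHull ℝ ((A₁ ∩ Metric.ball f (ε / 4)) ∪
              (A₁ \ Metric.ball f (ε / 4))) := by
            rwa [Set.inter_union_sdiff]
          rw [convexHull_union hB0 hB, mem_convexJoin] at hp'
          obtain ⟨p₀, hp₀, p₁, hp₁, hseg⟩ := hp'
          rw [segment_eq_image] at hseg
          obtain ⟨t, ⟨ht0, ht1⟩, rfl⟩ := hseg
          have hFp₀ : F p₀ ≤ M := hMhull _ (convexHull_mono Set.inter_subset_left hp₀)
          have hFp₁ : F p₁ < u := hu1 _ (subset_closure hp₁)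
          have ht : t ≤ lam := by
            have h1 : F ((1 - t) • p₀ + t • p₁) = (1 - t) * F p₀ + t * F p₁ := by
              simp [smul_eq_mul]
            have hFp' : M - 2 * δ < (1 - t) * F p₀ + t * F p₁ := by rw [← h1]; exact hFp
            have h2 : (1 - t) * F p₀ + t * F p₁ ≤ (1 - t) * M + t * u := by
              have h3 : 0 ≤ 1 - t := by linarith
              nlinarith [mul_le_mul_of_nonneg_left hFp₀ h3,
                mul_le_mul_of_nonneg_left hFp₁.le ht0]
            have h4 : t * (M - u) < lam * (M - u) := by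
              have : 2 * δ = lam * (M - u) := by rw [hδ]; ring
              nlinarith
            exact (lt_of_mul_lt_mul_right h4 (by linarith)).le
          have hd0 : ‖p₀ - f‖ ≤ ε / 4 := by
            have h1 : convexHull ℝ (A₁ ∩ Metric.ball f (ε / 4)) ⊆ Metric.ball f (ε / 4) :=
              convexHull_min Set.inter_subset_right (convex_ball _ _)
            have := h1 hp₀
            rw [Metric.mem_ball, dist_eq_norm] at this
            exact this.le
          have hd1 : ‖p₁ - f‖ ≤ 2 * R := by
            have h1 : convexHull ℝ (A₁ \ Metric.ball f (ε / 4)) ⊆ Metric.closedBall 0 R :=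
              convexHull_min (fun a ha => by
                rw [mem_closedBall_zero_iff]; exact hbd a (hsub ha.1)) (convex_closedBall _ _)
            have h2 := h1 hp₁
            rw [mem_closedBall_zero_iff] at h2
            calc ‖p₁ - f‖ ≤ ‖p₁‖ + ‖f‖ := norm_sub_le _ _
              _ ≤ 2 * R := by linarith [hbd f (hsub hf)]
          have heq : ((1 - t) • p₀ + t • p₁) - f = (1 - t) • (p₀ - f) + t • (p₁ - f) := by
            module
          show dist ((1 - t) • p₀ + t • p₁) f ≤ _
          rw [dist_eq_norm, heq]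
          calc ‖(1 - t) • (p₀ - f) + t • (p₁ - f)‖
              ≤ ‖(1 - t) • (p₀ - f)‖ + ‖t • (p₁ - f)‖ := norm_add_le _ _
            _ = (1 - t) * ‖p₀ - f‖ + t * ‖p₁ - f‖ := by
                rw [norm_smul, norm_smul, Real.norm_eq_abs, Real.norm_eq_abs,
                  abs_of_nonneg (by linarith : (0 : ℝ) ≤ 1 - t), abs_of_nonneg ht0]
            _ ≤ 1 * (ε / 4) + lam * (2 * R) := by
                apply add_le_add
                · exact mul_le_mul (by linarith) hd0 (norm_nonneg _) (by norm_num)
                · exact mul_le_mul ht hd1 (norm_nonneg _) hlam0.le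
            _ = ε / 4 + lam * (2 * R) := by ring
      have hlamR : lam * (2 * R) ≤ ε / 8 := by
        calc lam * (2 * R) ≤ ε / (16 * (R + 1)) * (2 * (R + 1)) := by
              apply mul_le_mul hlam1 (by linarith) (by positivity) (by positivity)
          _ = ε / 8 := by field_simp; ring
      calc dist g f ≤ dist g p + dist p f := dist_triangle _ _ _
        _ < ε / 2 := by linarith
    -- a point of `A₁` with large `F`
    obtain ⟨_, ⟨g, hg, rfl⟩, hgM⟩ := exists_lt_of_lt_csSup (⟨_, ⟨f, hf, rfl⟩⟩ : (F '' A₁).Nonempty)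
      (by linarith : M - δ < M)
    exact hmain {p | F p ≤ M - δ} (convex_halfSpace_le F.toLinearMap.isLinear _)
      (isClosed_le F.continuous continuous_const) g (hsub hg) (not_le.2 hgM) hclose

end Pool.Agent.H.MP_36cdb9_an.U
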