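import Pool.Agent.H.MP_36cdb9_an.U.Flips

set_option autoImplicit false

open MeasureTheory Filter Topology BoundedContinuousFunction

namespace Pool.Agent.H.MP_36cdb9_an.U

lemma limit_abs_sgn (b : Bool) : |sgn b| = 1 := by
  unfold sgn
  cases b <;> simp

lemma limit_flip_continuous {L : ℕ → ℕ} (i : ℕ) :
    Continuous (flipSign (L := L) i) := by
  unfold flipSign
  refine continuous_pi fun j => ?_
  by_cases h : j = i
  · subst h
    simp only [Function.update_self]
    have h1 : Continuous (fun a : Fin (L j + 1) × Bool => (a.1, !a.2)) :=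
      continuous_of_discreteTopology
    exact h1.comp (continuous_apply j)
  · simp only [Function.update_of_ne h]
    exact continuous_apply j

lemma limit_flip_measurable {L : ℕ → ℕ} (i : ℕ) :
    Measurable (flipSign (L := L) i) :=
  (limit_flip_continuous i).measurable

/-- the correlation function is continuous -/
lemma limit_gain_continuous {X : Type*} [NormedAddCommGroup X] [NormedSpace ℝ X] {S : Type*}
    [TopologicalSpace S] (ev : S → X →L[ℝ] ℝ) (hev : ∀ x, Continuous fun s => ev s x)
    (L : ℕ → ℕ) (x : (j : ℕ) → Fin (L j + 1) → X) (j : ℕ) :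
    Continuous (fun p : Coord L × S => sgn (p.1 j).2 * ev p.2 (x j (p.1 j).1)) := by
  have h1 : Continuous (fun q : (Fin (L j + 1) × Bool) × S =>
      sgn q.1.2 * ev q.2 (x j q.1.1)) := by
    rw [continuous_prod_of_discrete_left]
    intro a
    exact Continuous.mul (f := fun _ : S => sgn a.2) (g := fun s : S => ev s (x j a.1))
      continuous_const (hev (x j a.1))
  have h2 : Continuous (fun p : Coord L × S => (p.1 j, p.2)) :=
    ((continuous_apply j).comp continuous_fst).prodMk continuous_snd
  exact h1.comp h2

/-- M10a: the limit measure on `Coord L × S`. -/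
theorem exists_limit {X : Type*} [NormedAddCommGroup X] [NormedSpace ℝ X] {S : Type*}
    [TopologicalSpace S] [CompactSpace S] [PolishSpace S] [MeasurableSpace S] [BorelSpace S]
    (ev : S → X →L[ℝ] ℝ) (hev : ∀ x, Continuous fun s => ev s x) (R : ℝ) (hR : ∀ s, ‖ev s‖ ≤ R)
    (c : ℝ) (hc : 0 < c) (η : ℕ → ℝ) (hη : ∀ j, 0 ≤ η j)
    (hsum : ∀ j, ∑ i ∈ Finset.range j, η i ≤ c / 4)
    (C : FlipChain ev c η) :
    ∃ ρ : Measure (Coord C.L × S), IsProbabilityMeasure ρ ∧
      (∀ i, (ρ.map Prod.fst).map (flipSign i) = ρ.map Prod.fst) ∧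
      ∀ j, c / 4 ≤ ∫ p, sgn (p.1 j).2 * ev p.2 (C.x j (p.1 j).1) ∂ρ := by
  classical
  choose ν κ hν hκ hinv hgain using fun n => exists_flips ev hev R hR c η hη C n
  have hpm : ∀ n, Measurable (fun w : Coord C.L => (w, κ n w)) := fun n =>
    measurable_id.prodMk (hκ n)
  let m : ℕ → ProbabilityMeasure (Coord C.L × S) := fun n =>
    ⟨(ν n).map (fun w => (w, κ n w)), by
      have := hν n
      exact Measure.isProbabilityMeasure_map (hpm n).aemeasurable⟩
  let U : Ultrafilter ℕ := Filter.hyperfilter ℕ
  obtain ⟨ρ, -, hρ⟩ := (isCompact_univ : IsCompact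
    (Set.univ : Set (ProbabilityMeasure (Coord C.L × S)))).ultrafilter_le_nhds (U.map m) (by simp)
  have hlim : Tendsto m U (𝓝 ρ) := hρ
  rw [ProbabilityMeasure.tendsto_iff_forall_integral_tendsto] at hlim
  have hmint : ∀ n (f : Coord C.L × S → ℝ), Continuous f →
      ∫ p, f p ∂(m n : Measure (Coord C.L × S)) = ∫ w, f (w, κ n w) ∂(ν n) := by
    intro n f hf
    exact integral_map (hpm n).aemeasurable hf.measurable.aestronglyMeasurable
  have hUgt : ∀ j : ℕ, ∀ᶠ n in (U : Filter ℕ), j < n := by
    intro j
    have h1 : (U : Filter ℕ) ≤ Filter.atTop := by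
      rw [← Nat.cofinite_eq_atTop]
      exact Filter.hyperfilter_le_cofinite
    exact h1 (Filter.eventually_gt_atTop j)
  have hlimf : ∀ f : Coord C.L × S → ℝ, Continuous f →
      Tendsto (fun n => ∫ w, f (w, κ n w) ∂(ν n)) U
        (𝓝 (∫ p, f p ∂(ρ : Measure (Coord C.L × S)))) := by
    intro f hf
    have h1 := hlim (BoundedContinuousFunction.mkOfCompact ⟨f, hf⟩)
    simp only [BoundedContinuousFunction.mkOfCompact_apply, ContinuousMap.coe_mk] at h1
    refine h1.congr fun n => ?_
    exact hmint n f hf
  refine ⟨(ρ : Measure (Coord C.L × S)), inferInstance, ?_, ?_⟩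
  · intro i
    have hfl : Measurable (flipSign (L := C.L) i) := limit_flip_measurable i
    have hp1 : IsProbabilityMeasure ((ρ : Measure (Coord C.L × S)).map Prod.fst) :=
      Measure.isProbabilityMeasure_map measurable_fst.aemeasurable
    have hp2 : IsProbabilityMeasure
        (((ρ : Measure (Coord C.L × S)).map Prod.fst).map (flipSign i)) :=
      Measure.isProbabilityMeasure_map hfl.aemeasurable
    refine ext_of_forall_integral_eq_of_IsFiniteMeasure fun f => ?_
    have hcf : Continuous (fun w : Coord C.L => f (flipSign i w)) :=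
      f.continuous.comp (limit_flip_continuous i)
    rw [integral_map hfl.aemeasurable f.continuous.measurable.aestronglyMeasurable,
      integral_map measurable_fst.aemeasurable hcf.measurable.aestronglyMeasurable,
      integral_map measurable_fst.aemeasurable f.continuous.measurable.aestronglyMeasurable]
    have h1 := hlimf (fun p => f (flipSign i p.1))
      (f.continuous.comp ((limit_flip_continuous i).comp continuous_fst))
    have h2 := hlimf (fun p => f p.1) (f.continuous.comp continuous_fst)
    refine tendsto_nhds_unique_of_eventuallyEq h1 h2 ?_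
    filter_upwards [hUgt i] with n hn
    have h3 : ∫ w, f w ∂((ν n).map (flipSign i)) = ∫ w, f (flipSign i w) ∂(ν n) :=
      integral_map hfl.aemeasurable f.continuous.measurable.aestronglyMeasurable
    rw [hinv n i hn] at h3
    exact h3.symm
  · intro j
    have h1 := hlimf _ (limit_gain_continuous ev hev C.L C.x j)
    refine ge_of_tendsto h1 ?_
    filter_upwards [hUgt j] with n hn
    have h2 := hgain n j hn
    have h3 := hsum j
    refine le_trans ?_ h2
    linarith

end Pool.Agent.H.MP_36cdb9_an.U
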