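import Pool.Agent.H.MP_36cdb9_an.U.Patterns
import Pool.Agent.H.MP_36cdb9_an.U.Rademacher
import Pool.Agent.H.MP_36cdb9_an.U.Haydon
import Pool.Agent.H.MP_36cdb9_an.U.Repr
import Pool.Agent.H.MP_36cdb9_an.U.Minimal
import Pool.Agent.H.MP_36cdb9_an.U.Hull
import Pool.Agent.H.MP_36cdb9_an.U.OneStep
import Pool.Agent.H.MP_36cdb9_an.U.Limit
import Pool.Agent.H.MP_36cdb9_an.U.Fiber

set_option autoImplicit false

open MeasureTheory

namespace Pool.Agent.H.MP_36cdb9_an.U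

/-- The abstract theorem. -/
theorem main_abstract {X : Type*} [NormedAddCommGroup X] [NormedSpace ℝ X] [CompleteSpace X]
    [TopologicalSpace.SeparableSpace X]
    {S : Type*} [TopologicalSpace S] [CompactSpace S] [PolishSpace S] [MeasurableSpace S]
    [BorelSpace S] (ev : S → X →L[ℝ] ℝ) (hev : ∀ x, Continuous fun s => ev s x)
    (R : ℝ) (hR : ∀ s, ‖ev s‖ ≤ R) (K : Set S) (hK : IsClosed K) (hne : K.Nonempty)
    (ε : ℝ) (hε : 0 < ε)
    (hnd : ∀ s ∈ K, ev s ∈ closure (convexHull ℝ ((ev '' K) \ Metric.ball (ev s) ε))) :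
    HasL1 X := by
  by_contra hno
  obtain ⟨K₁, hsub, hK₁, hne₁, hdom, hslice⟩ := exists_minimal ev hev K hK hne
  have hhull : ev '' K ⊆ closure (convexHull ℝ (ev '' K₁)) := by
    rintro _ ⟨s, hs, rfl⟩
    by_contra hns
    obtain ⟨F, u, hu1, hu2⟩ := geometric_hahn_banach_closed_point
      (convex_convexHull ℝ (ev '' K₁)).closure isClosed_closure hns
    obtain ⟨μ, hμp, hμ0, hμz⟩ := exists_repr_measure ev hev K₁ hK₁ hne₁ (ev s)
      (fun x => hdom s hs x)
    exact hno (hasL1_of_separated ev hev R hR K₁ hK₁ μ hμ0 (ev s) hμz F u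
      (fun t ht => (hu1 _ (subset_closure (subset_convexHull ℝ _ ⟨t, ht, rfl⟩))).le) hu2)
  have hnd₁ : ∀ s ∈ K₁, ev s ∈ closure (convexHull ℝ ((ev '' K₁) \ Metric.ball (ev s) (ε / 4))) := by
    intro s hs
    refine nonDentable_of_subset (ev '' K) (ev '' K₁) (Set.image_mono hsub) (hne.image ev) R ?_
      hhull ε hε ?_ (ev s) ⟨s, hs, rfl⟩
    · rintro _ ⟨t, _, rfl⟩; exact hR t
    · rintro _ ⟨t, ht, rfl⟩; exact hnd t ht
  set c : ℝ := ε / 4 / 4 with hc
  have hcpos : 0 < c := by positivity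
  set η : ℕ → ℝ := fun j => c / 4 * (1 / 2) ^ (j + 1) with hηdef
  have hηpos : ∀ j, 0 < η j := fun j => by positivity
  obtain ⟨C⟩ := exists_chain ev hev R hR K₁ hK₁ hne₁ (ε / 4) (by positivity) hnd₁ hslice η hηpos
  have hsum : ∀ j, ∑ i ∈ Finset.range j, η i ≤ c / 4 := by
    intro j
    have h1 : ∀ j, ∑ i ∈ Finset.range j, η i = c / 4 * (1 - (1 / 2) ^ j) := by
      intro j
      induction j with
      | zero => simp
      | succ m ih => rw [Finset.sum_range_succ, ih, hηdef]; ring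
    rw [h1]
    have : 0 ≤ (1 / 2 : ℝ) ^ j := by positivity
    nlinarith
  obtain ⟨ρ, hρ, hinv, hgain⟩ := exists_limit ev hev R hR c hcpos η (fun j => (hηpos j).le) hsum C
  obtain ⟨l, φ, μ, hμ, hφ, horth, hg⟩ := exists_fiber ev hev R hR (c / 4) (by positivity) C.L C.x
    C.norm_x ρ hinv hgain
  have hsgnm : Measurable sgn := measurable_of_finite _
  have hRn : ∀ (s : S) (y : X), ‖y‖ ≤ 1 → |ev s y| ≤ R := by
    intro s y hy
    have h1 : ‖ev s y‖ ≤ ‖ev s‖ * ‖y‖ := (ev s).le_opNorm y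
    have h2 : ‖ev s‖ * ‖y‖ ≤ R := by
      calc ‖ev s‖ * ‖y‖ ≤ ‖ev s‖ * 1 := by gcongr
        _ ≤ R := by rw [mul_one]; exact hR s
    exact h1.trans h2
  obtain ⟨a, b, ψ, hab, hψ, hpat⟩ := patterns_of_rademacher μ
    (fun k (q : (ℕ → Bool) × S) => sgn (q.1 (φ k)))
    (fun k (q : (ℕ → Bool) × S) => ev q.2 (C.x (φ k) (l (φ k)))) R (c / 4 / 2) (by positivity)
    (fun k => hsgnm.comp ((measurable_pi_apply _).comp measurable_fst))
    (fun k q => by
      unfold sgn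
      by_cases h : q.1 (φ k) = true
      · simp [h]
      · simp [h])
    (fun i j hij => horth _ _ (hφ.injective.ne hij))
    (fun k => ((hev _).measurable).comp measurable_snd)
    (fun k q => hRn _ _ (C.norm_x _ _)) hg
  refine hno (hasL1_of_patterns (fun i => C.x (φ (ψ i)) (l (φ (ψ i)))) 1 R a b hab
    (fun i => C.norm_x _ _) ?_)
  intro n σ
  obtain ⟨q, hq⟩ := hpat n σ
  exact ⟨ev q.2, hR _, hq⟩

end Pool.Agent.H.MP_36cdb9_an.U
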