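import Mathlib

set_option autoImplicit false

open MeasureTheory

namespace Pool.Agent.H.MP_36cdb9_an.U

/-- `ℓ¹` embeds isomorphically in `X`. -/
def HasL1 (X : Type*) [NormedAddCommGroup X] [NormedSpace ℝ X] : Prop :=
  ∃ (T : lp (fun _ : ℕ => ℝ) 1 →L[ℝ] X) (c : ℝ),
    0 < c ∧ ∀ v : lp (fun _ : ℕ => ℝ) 1, c * ‖v‖ ≤ ‖T v‖

/-- the sign attached to a Boolean -/
def sgn (b : Bool) : ℝ := if b then 1 else -1

/-- A chain of uniform flips: sets `V 0 ⊇ V 1 ⊇ …`, and for each `w ∈ V (j+1)` points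
`Φ j w l ∈ V j` (`l ∈ Fin (L j + 1)`) whose images under `ev` average to `ev w` up to `η j` in the
dual norm, while the functionals `x j l` gain at least `c` on average. -/
structure FlipChain {X : Type*} [NormedAddCommGroup X] [NormedSpace ℝ X] {S : Type*}
    (ev : S → X →L[ℝ] ℝ) (c : ℝ) (η : ℕ → ℝ) where
  V : ℕ → Set S
  L : ℕ → ℕ
  x : (j : ℕ) → Fin (L j + 1) → X
  Φ : (j : ℕ) → S → Fin (L j + 1) → S
  ne : ∀ j, (V j).Nonempty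
  sub : ∀ j, V (j + 1) ⊆ V j
  norm_x : ∀ j l, ‖x j l‖ ≤ 1
  mem : ∀ j, ∀ w ∈ V (j + 1), ∀ l, Φ j w l ∈ V j
  avg_close : ∀ j, ∀ w ∈ V (j + 1),
    ‖ev w - ((L j + 1 : ℕ) : ℝ)⁻¹ • ∑ l, ev (Φ j w l)‖ ≤ η j
  avg_gain : ∀ j, ∀ w ∈ V (j + 1),
    c ≤ ((L j + 1 : ℕ) : ℝ)⁻¹ * ∑ l, (ev (Φ j w l) (x j l) - ev w (x j l))

end Pool.Agent.H.MP_36cdb9_an.U
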