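import Pool.Agent.H.MP_36cdb9_an.U.Defs

set_option autoImplicit false

open MeasureTheory

namespace Pool.Agent.H.MP_36cdb9_an.U

section
variable {Ω : Type*} [MeasurableSpace Ω] (μ : Measure Ω) [IsFiniteMeasure μ]
    (ν : Set Ω → ℝ) (C : ℝ)

lemma density_empty (hbd : ∀ s, MeasurableSet s → |ν s| ≤ C * (μ s).toReal) : ν ∅ = 0 := by
  have := hbd ∅ MeasurableSet.empty
  simpa using this

lemma density_tail
    (hadd : ∀ s t, MeasurableSet s → MeasurableSet t → Disjoint s t → ν (s ∪ t) = ν s + ν t)
    (f : ℕ → Set Ω) (hf : ∀ i, MeasurableSet (f i)) (hd : Pairwise (Function.onFun Disjoint f))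
    (n : ℕ) : ν (⋃ i, f i) = ∑ i ∈ Finset.range n, ν (f i) + ν (⋃ i, f (i + n)) := by
  induction n with
  | zero => simp
  | succ n ih =>
    have h1 : (⋃ i, f (i + n)) = f n ∪ ⋃ i, f (i + (n + 1)) := by
      ext ω
      simp only [Set.mem_iUnion, Set.mem_union]
      constructor
      · rintro ⟨i, hi⟩
        rcases Nat.eq_zero_or_pos i with h | h
        · left; rw [h, zero_add] at hi; exact hi
        · right
          refine ⟨i - 1, ?_⟩
          have : i - 1 + (n + 1) = i + n := by omega
          rw [this]; exact hi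
      · rintro (h | ⟨i, hi⟩)
        · exact ⟨0, by rw [zero_add]; exact h⟩
        · refine ⟨i + 1, ?_⟩
          have : i + 1 + n = i + (n + 1) := by omega
          rw [this]; exact hi
    have h2 : Disjoint (f n) (⋃ i, f (i + (n + 1))) := by
      rw [Set.disjoint_iUnion_right]
      intro i
      exact hd (by omega)
    rw [ih, Finset.sum_range_succ, h1, hadd _ _ (hf n) (MeasurableSet.iUnion fun i => hf _) h2]
    ring

lemma density_hasSum (hC : 0 ≤ C)
    (hadd : ∀ s t, MeasurableSet s → MeasurableSet t → Disjoint s t → ν (s ∪ t) = ν s + ν t)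
    (hbd : ∀ s, MeasurableSet s → |ν s| ≤ C * (μ s).toReal)
    (f : ℕ → Set Ω) (hf : ∀ i, MeasurableSet (f i)) (hd : Pairwise (Function.onFun Disjoint f)) :
    HasSum (fun i => ν (f i)) (ν (⋃ i, f i)) := by
  have htot : ∑' i, μ (f i) ≠ ⊤ := by
    rw [← measure_iUnion hd hf]
    exact measure_ne_top _ _
  have hsum : Summable fun i => ν (f i) := by
    refine Summable.of_norm_bounded (g := fun i => C * (μ (f i)).toReal) ?_ fun i => hbd _ (hf i)
    exact (ENNReal.summable_toReal htot).mul_left C
  rw [hsum.hasSum_iff_tendsto_nat]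
  have h1 : ∀ n, ∑ i ∈ Finset.range n, ν (f i) = ν (⋃ i, f i) - ν (⋃ i, f (i + n)) := by
    intro n
    rw [density_tail ν hadd f hf hd n]
    ring
  simp only [h1]
  have h2 : Filter.Tendsto (fun n => ν (⋃ i, f (i + n))) Filter.atTop (nhds 0) := by
    have h3 : Filter.Tendsto (fun n => C * (μ (⋃ i, f (i + n))).toReal) Filter.atTop
        (nhds (C * 0)) := by
      refine Filter.Tendsto.const_mul C ?_
      have h4 := ENNReal.tendsto_sum_nat_add (fun i => μ (f i)) htot
      have h5 : ∀ n, ∑' k, μ (f (k + n)) = μ (⋃ i, f (i + n)) := by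
        intro n
        rw [measure_iUnion]
        · intro i j hij
          exact hd (by omega)
        · intro i; exact hf _
      simp only [h5] at h4
      have h6 := (ENNReal.continuousAt_toReal (by simp : (0 : ENNReal) ≠ ⊤)).tendsto.comp h4
      simpa [Function.comp_def] using h6
    rw [mul_zero] at h3
    exact squeeze_zero_norm (fun n => hbd _ (MeasurableSet.iUnion fun i => hf _)) h3
  simpa using tendsto_const_nhds.sub h2

open Classical in
/-- the signed measure -/
noncomputable def densityMeasure (hC : 0 ≤ C)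
    (hadd : ∀ s t, MeasurableSet s → MeasurableSet t → Disjoint s t → ν (s ∪ t) = ν s + ν t)
    (hbd : ∀ s, MeasurableSet s → |ν s| ≤ C * (μ s).toReal) : SignedMeasure Ω where
  measureOf' := fun s => if MeasurableSet s then ν s else 0
  empty' := by
    rw [if_pos MeasurableSet.empty]
    exact density_empty μ ν C hbd
  not_measurable' := fun s hs => by rw [if_neg hs]
  m_iUnion' := fun f hf hd => by
    have h := density_hasSum μ ν C hC hadd hbd f hf hd
    rw [if_pos (MeasurableSet.iUnion hf)]
    have h2 : (fun i => if MeasurableSet (f i) then ν (f i) else 0) = fun i => ν (f i) := by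
      funext i
      rw [if_pos (hf i)]
    rw [h2]
    exact h

end

/-- M2: a finitely additive set function dominated by a finite measure has a bounded density. -/
theorem exists_density {Ω : Type*} [MeasurableSpace Ω] (μ : Measure Ω) [IsFiniteMeasure μ]
    (ν : Set Ω → ℝ) (C : ℝ) (hC : 0 ≤ C)
    (hadd : ∀ s t, MeasurableSet s → MeasurableSet t → Disjoint s t → ν (s ∪ t) = ν s + ν t)
    (hbd : ∀ s, MeasurableSet s → |ν s| ≤ C * (μ s).toReal) :
    ∃ φ : Ω → ℝ, Measurable φ ∧ (∀ ω, |φ ω| ≤ C) ∧
      ∀ s, MeasurableSet s → ν s = ∫ ω in s, φ ω ∂μ := by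
  classical
  set m := densityMeasure μ ν C hC hadd hbd with hm
  have hmν : ∀ s, MeasurableSet s → m s = ν s := fun s hs => if_pos hs
  have hac : m ≪ᵥ μ.toENNRealVectorMeasure := by
    intro s hs
    by_cases h : MeasurableSet s
    · rw [Measure.toENNRealVectorMeasure_apply_measurable h] at hs
      rw [hmν s h]
      have := hbd s h
      rw [hs] at this
      simpa using this
    · exact m.not_measurable h
  have hRN := SignedMeasure.withDensityᵥ_rnDeriv_eq m μ hac
  set φ₀ := m.rnDeriv μ with hφ₀
  have hφm : Measurable φ₀ := SignedMeasure.measurable_rnDeriv m μ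
  have hφi : Integrable φ₀ μ := SignedMeasure.integrable_rnDeriv m μ
  have hν : ∀ s, MeasurableSet s → ν s = ∫ ω in s, φ₀ ω ∂μ := by
    intro s hs
    rw [← hmν s hs, ← hRN, withDensityᵥ_apply hφi hs]
  have hle : φ₀ ≤ᵐ[μ] fun _ => C := by
    refine ae_le_of_forall_setIntegral_le hφi (integrable_const C) fun s hs _ => ?_
    rw [← hν s hs, setIntegral_const, smul_eq_mul, mul_comm]
    exact (le_abs_self _).trans (hbd s hs)
  have hge : (fun _ => -C) ≤ᵐ[μ] φ₀ := by
    refine ae_le_of_forall_setIntegral_le (integrable_const (-C)) hφi fun s hs _ => ?_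
    rw [← hν s hs, setIntegral_const, smul_eq_mul]
    have := (abs_le.1 (hbd s hs)).1
    rw [Measure.real]
    linarith
  refine ⟨fun ω => max (-C) (min C (φ₀ ω)), measurable_const.max (measurable_const.min hφm),
    fun ω => ?_, fun s hs => ?_⟩
  · rw [abs_le]
    exact ⟨le_max_left _ _, max_le (by linarith) (min_le_left _ _)⟩
  · rw [hν s hs]
    refine setIntegral_congr_ae hs ?_
    filter_upwards [hle, hge] with ω h1 h2 _
    rw [min_eq_right h1, max_eq_right h2]

end Pool.Agent.H.MP_36cdb9_an.U
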