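import Pool.Agent.H.MP_36cdb9_an.U.Defs

set_option autoImplicit false

open MeasureTheory

namespace Pool.Agent.H.MP_36cdb9_an.U

/-- the coordinates: a choice of index and a sign for each block -/
abbrev Coord (L : ℕ → ℕ) : Type := ∀ j : ℕ, Fin (L j + 1) × Bool

/-- flip the sign of coordinate `i` -/
def flipSign {L : ℕ → ℕ} (i : ℕ) (ω : Coord L) : Coord L :=
  Function.update ω i ((ω i).1, !(ω i).2)

/-- iterated average over the first `n` coordinates -/
noncomputable def flipsEx (L : ℕ → ℕ) : ℕ → (Coord L → ℝ) → ℝ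
  | 0, f => f (fun _ => (0, true))
  | n + 1, f => (((L n + 1) * 2 : ℕ) : ℝ)⁻¹ *
      ∑ a : Fin (L n + 1) × Bool, flipsEx L n (fun w => f (Function.update w n a))

lemma flipsEx_mono (L : ℕ → ℕ) (n : ℕ) : ∀ (f g : Coord L → ℝ), (∀ w, f w ≤ g w) →
    flipsEx L n f ≤ flipsEx L n g := by
  induction n with
  | zero => intro f g h; exact h _
  | succ n ih =>
    intro f g h
    simp only [flipsEx]
    gcongr with a
    exact ih _ _ (fun w => h _)

lemma flipsEx_smul (L : ℕ → ℕ) (n : ℕ) : ∀ (c : ℝ) (f : Coord L → ℝ),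
    flipsEx L n (fun w => c * f w) = c * flipsEx L n f := by
  induction n with
  | zero => intro c f; rfl
  | succ n ih =>
    intro c f
    simp only [flipsEx, ih]
    rw [← Finset.mul_sum]
    ring

/-- average over one block, with signs -/
lemma flipsEx_avg (N : ℕ) (g : Fin (N + 1) × Bool → ℝ) :
    (((N + 1) * 2 : ℕ) : ℝ)⁻¹ * ∑ a : Fin (N + 1) × Bool, g a =
      ((N + 1 : ℕ) : ℝ)⁻¹ * ∑ l : Fin (N + 1), (g (l, true) + g (l, false)) / 2 := by
  rw [Fintype.sum_prod_type]
  simp only [Fintype.univ_bool, Finset.mem_singleton, Bool.true_eq_false, not_false_eq_true,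
    Finset.sum_insert, Finset.sum_singleton]
  rw [← Finset.sum_div]
  push_cast
  field_simp

lemma flipsEx_avg_const (N : ℕ) (c : ℝ) :
    (((N + 1) * 2 : ℕ) : ℝ)⁻¹ * ∑ _a : Fin (N + 1) × Bool, c = c := by
  rw [flipsEx_avg]
  simp only [Finset.sum_const, Finset.card_univ, Fintype.card_fin, nsmul_eq_mul]
  push_cast
  have : ((N : ℝ) + 1) ≠ 0 := by positivity
  field_simp
  ring

lemma flipsEx_avg_mono (N : ℕ) (g h : Fin (N + 1) × Bool → ℝ) (hgh : ∀ a, g a ≤ h a) :
    (((N + 1) * 2 : ℕ) : ℝ)⁻¹ * ∑ a : Fin (N + 1) × Bool, g a ≤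
      (((N + 1) * 2 : ℕ) : ℝ)⁻¹ * ∑ a : Fin (N + 1) × Bool, h a := by
  gcongr with a
  exact hgh a

/-- the functional `flipsEx` is a finite average of point evaluations -/
lemma flipsEx_points (L : ℕ → ℕ) (n : ℕ) : ∃ (ι : Type) (_ : Fintype ι) (_ : Nonempty ι)
    (p : ι → Coord L), ∀ f : Coord L → ℝ,
      (Fintype.card ι : ℝ)⁻¹ * ∑ i, f (p i) = flipsEx L n f := by
  induction n with
  | zero => exact ⟨Unit, inferInstance, inferInstance, fun _ _ => (0, true), fun f => by
      simp [flipsEx]⟩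
  | succ n ih =>
    obtain ⟨ι, _, _, p, hp⟩ := ih
    refine ⟨(Fin (L n + 1) × Bool) × ι, inferInstance, inferInstance,
      fun q => Function.update (p q.2) n q.1, fun f => ?_⟩
    rw [Fintype.sum_prod_type]
    simp only [flipsEx]
    rw [Fintype.card_prod, Fintype.card_prod, Fintype.card_fin, Fintype.card_bool]
    simp only [← hp]
    rw [← Finset.mul_sum]
    push_cast
    have h1 : ((L n : ℝ) + 1) ≠ 0 := by positivity
    have h2 : (Fintype.card ι : ℝ) ≠ 0 := by
      have := Fintype.card_pos (α := ι)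
      positivity
    field_simp

lemma flipSign_update_same {L : ℕ → ℕ} (n : ℕ) (w : Coord L) (a : Fin (L n + 1) × Bool) :
    flipSign n (Function.update w n a) = Function.update w n (a.1, !a.2) := by
  simp [flipSign]

lemma flipSign_update_ne {L : ℕ → ℕ} (i n : ℕ) (h : i ≠ n) (w : Coord L)
    (a : Fin (L n + 1) × Bool) :
    flipSign i (Function.update w n a) = Function.update (flipSign i w) n a := by
  unfold flipSign
  rw [Function.update_of_ne h, Function.update_comm h]

lemma flipsEx_inv (L : ℕ → ℕ) (n : ℕ) : ∀ (i : ℕ), i < n → ∀ (f : Coord L → ℝ),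
    flipsEx L n (fun w => f (flipSign i w)) = flipsEx L n f := by
  induction n with
  | zero => intro i hi; omega
  | succ n ih =>
    intro i hi f
    rcases Nat.lt_succ_iff_lt_or_eq.1 hi with h | h
    · simp only [flipsEx]
      congr 1
      refine Finset.sum_congr rfl fun a _ => ?_
      rw [← ih i h (fun w => f (Function.update w n a))]
      congr 1
      funext w
      rw [flipSign_update_ne i n h.ne]
    · subst h
      simp only [flipsEx, flipSign_update_same]
      congr 1
      let e : (Fin (L i + 1) × Bool) ≃ (Fin (L i + 1) × Bool) :=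
        { toFun := fun a => (a.1, !a.2)
          invFun := fun a => (a.1, !a.2)
          left_inv := fun a => by simp
          right_inv := fun a => by simp }
      exact Fintype.sum_equiv e _ _ (fun a => rfl)

/-- one step of the random flip -/
def flipsStep {S : Type*} {L : ℕ → ℕ} (Φ : (j : ℕ) → S → Fin (L j + 1) → S) (n : ℕ) (s : S)
    (a : Fin (L n + 1) × Bool) : S := if a.2 then Φ n s a.1 else s

/-- the random flip -/
def flipsFlip {S : Type*} {L : ℕ → ℕ} (Φ : (j : ℕ) → S → Fin (L j + 1) → S) :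
    ℕ → S → Coord L → S
  | 0, s, _ => s
  | n + 1, s, w => flipsFlip Φ n (flipsStep Φ n s (w n)) w

lemma flipsFlip_update {S : Type*} {L : ℕ → ℕ} (Φ : (j : ℕ) → S → Fin (L j + 1) → S) (n : ℕ) :
    ∀ (m : ℕ), n ≤ m → ∀ (s : S) (w : Coord L) (a : Fin (L m + 1) × Bool),
      flipsFlip Φ n s (Function.update w m a) = flipsFlip Φ n s w := by
  induction n with
  | zero => intro m _ s w a; rfl
  | succ n ih =>
    intro m hm s w a
    simp only [flipsFlip]
    rw [Function.update_of_ne (by omega), ih m (by omega)]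

lemma flipsFlip_measurable {S : Type*} [MeasurableSpace S] {L : ℕ → ℕ}
    (Φ : (j : ℕ) → S → Fin (L j + 1) → S) (n : ℕ) :
    ∀ (s : S), Measurable (flipsFlip Φ n s) := by
  induction n with
  | zero => intro s; exact measurable_const
  | succ n ih =>
    intro s
    have h : Measurable (fun q : (Fin (L n + 1) × Bool) × Coord L =>
        flipsFlip Φ n (flipsStep Φ n s q.1) q.2) :=
      measurable_from_prod_countable_right (fun a => ih (flipsStep Φ n s a))
    have h2 : Measurable (fun w : Coord L => ((w n, w) : (Fin (L n + 1) × Bool) × Coord L)) :=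
      (measurable_pi_apply n).prodMk measurable_id
    exact h.comp h2

section
variable {X : Type*} [NormedAddCommGroup X] [NormedSpace ℝ X] {S : Type*}
  {ev : S → X →L[ℝ] ℝ} {c : ℝ} {η : ℕ → ℝ} (C : FlipChain ev c η)

include C

lemma flips_step_mem (n : ℕ) (s : S) (hs : s ∈ C.V (n + 1)) (a : Fin (C.L n + 1) × Bool) :
    flipsStep C.Φ n s a ∈ C.V n := by
  unfold flipsStep
  split_ifs
  · exact C.mem n s hs a.1
  · exact C.sub n hs

lemma flips_avg_step (n : ℕ) (s : S) (hs : s ∈ C.V (n + 1)) (y : X) (hy : ‖y‖ ≤ 1) :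
    |(((C.L n + 1) * 2 : ℕ) : ℝ)⁻¹ * ∑ a : Fin (C.L n + 1) × Bool, ev (flipsStep C.Φ n s a) y
      - ev s y| ≤ η n := by
  rw [flipsEx_avg]
  have h1 := C.avg_close n s hs
  have h2 : |(ev s - ((C.L n + 1 : ℕ) : ℝ)⁻¹ • ∑ l, ev (C.Φ n s l)) y| ≤ η n := by
    have := (ev s - ((C.L n + 1 : ℕ) : ℝ)⁻¹ • ∑ l, ev (C.Φ n s l)).le_opNorm y
    rw [Real.norm_eq_abs] at this
    refine this.trans ?_
    calc ‖ev s - ((C.L n + 1 : ℕ) : ℝ)⁻¹ • ∑ l, ev (C.Φ n s l)‖ * ‖y‖
        ≤ ‖ev s - ((C.L n + 1 : ℕ) : ℝ)⁻¹ • ∑ l, ev (C.Φ n s l)‖ * 1 := by gcongr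
      _ ≤ η n := by rw [mul_one]; exact h1
  have h3 : ((C.L n + 1 : ℕ) : ℝ)⁻¹ * ∑ l : Fin (C.L n + 1),
      (ev (flipsStep C.Φ n s (l, true)) y + ev (flipsStep C.Φ n s (l, false)) y) / 2 - ev s y
      = -(1 / 2) * (ev s - ((C.L n + 1 : ℕ) : ℝ)⁻¹ • ∑ l, ev (C.Φ n s l)) y := by
    simp only [flipsStep, if_true, Bool.false_eq_true, if_false]
    simp only [sub_apply, smul_apply, sum_apply, smul_eq_mul]
    rw [← Finset.sum_div, Finset.sum_add_distrib]
    simp only [Finset.sum_const, Finset.card_univ, Fintype.card_fin, nsmul_eq_mul]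
    push_cast
    have : ((C.L n : ℝ) + 1) ≠ 0 := by positivity
    field_simp
    ring
  rw [h3, abs_mul]
  have h4 : |(-(1 / 2) : ℝ)| = 1 / 2 := by norm_num
  rw [h4]
  have h5 : 0 ≤ η n := (abs_nonneg _).trans h2
  nlinarith

lemma flips_close (n : ℕ) : ∀ (s : S), s ∈ C.V n → ∀ (y : X), ‖y‖ ≤ 1 →
    |flipsEx C.L n (fun w => ev (flipsFlip C.Φ n s w) y) - ev s y| ≤
      ∑ i ∈ Finset.range n, η i := by
  induction n with
  | zero => intro s _ y _; simp [flipsEx, flipsFlip]
  | succ n ih =>
    intro s hs y hy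
    have h1 : flipsEx C.L (n + 1) (fun w => ev (flipsFlip C.Φ (n + 1) s w) y) =
        (((C.L n + 1) * 2 : ℕ) : ℝ)⁻¹ * ∑ a : Fin (C.L n + 1) × Bool,
          flipsEx C.L n (fun w => ev (flipsFlip C.Φ n (flipsStep C.Φ n s a) w) y) := by
      simp only [flipsEx, flipsFlip, Function.update_self]
      congr 1
      refine Finset.sum_congr rfl fun a _ => ?_
      congr 1
      funext w
      rw [flipsFlip_update C.Φ n n le_rfl]
    have h2 := flips_avg_step C n s hs y hy
    have h3 : |(((C.L n + 1) * 2 : ℕ) : ℝ)⁻¹ * ∑ a : Fin (C.L n + 1) × Bool,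
          flipsEx C.L n (fun w => ev (flipsFlip C.Φ n (flipsStep C.Φ n s a) w) y) -
        (((C.L n + 1) * 2 : ℕ) : ℝ)⁻¹ * ∑ a : Fin (C.L n + 1) × Bool,
          ev (flipsStep C.Φ n s a) y| ≤ ∑ i ∈ Finset.range n, η i := by
      rw [abs_sub_le_iff, ← mul_sub, ← mul_sub, ← Finset.sum_sub_distrib,
        ← Finset.sum_sub_distrib]
      have key : ∀ a : Fin (C.L n + 1) × Bool, _ := fun a =>
        ih (flipsStep C.Φ n s a) (flips_step_mem C n s hs a) y hy
      constructor
      · rw [← flipsEx_avg_const (C.L n) (∑ i ∈ Finset.range n, η i)]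
        exact flipsEx_avg_mono _ _ _ fun a => (abs_sub_le_iff.1 (key a)).1
      · rw [← flipsEx_avg_const (C.L n) (∑ i ∈ Finset.range n, η i)]
        exact flipsEx_avg_mono _ _ _ fun a => (abs_sub_le_iff.1 (key a)).2
    rw [h1, Finset.sum_range_succ]
    calc |_ - ev s y| ≤ |_ - _| + |_ - ev s y| := abs_sub_le _ _ _
      _ ≤ _ := add_le_add h3 h2

lemma flips_gain (n : ℕ) : ∀ (s : S), s ∈ C.V n → ∀ (j : ℕ), j < n →
    c / 2 - ∑ i ∈ Finset.range j, η i ≤
      flipsEx C.L n (fun w => sgn (w j).2 * ev (flipsFlip C.Φ n s w) (C.x j (w j).1)) := by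
  induction n with
  | zero => intro s _ j hj; omega
  | succ n ih =>
    intro s hs j hj
    rcases Nat.lt_succ_iff_lt_or_eq.1 hj with h | h
    · have h1 : flipsEx C.L (n + 1)
          (fun w => sgn (w j).2 * ev (flipsFlip C.Φ (n + 1) s w) (C.x j (w j).1)) =
          (((C.L n + 1) * 2 : ℕ) : ℝ)⁻¹ * ∑ a : Fin (C.L n + 1) × Bool,
          flipsEx C.L n (fun w => sgn (w j).2 *
            ev (flipsFlip C.Φ n (flipsStep C.Φ n s a) w) (C.x j (w j).1)) := by
        simp only [flipsEx, flipsFlip, Function.update_self, Function.update_of_ne h.ne]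
        congr 1
        refine Finset.sum_congr rfl fun a _ => ?_
        congr 1
        funext w
        rw [flipsFlip_update C.Φ n n le_rfl]
      rw [h1, ← flipsEx_avg_const (C.L n) (c / 2 - ∑ i ∈ Finset.range j, η i)]
      exact flipsEx_avg_mono _ _ _ fun a => ih _ (flips_step_mem C n s hs a) j h
    · subst h
      have h1 : flipsEx C.L (j + 1)
          (fun w => sgn (w j).2 * ev (flipsFlip C.Φ (j + 1) s w) (C.x j (w j).1)) =
          (((C.L j + 1) * 2 : ℕ) : ℝ)⁻¹ * ∑ a : Fin (C.L j + 1) × Bool,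
          sgn a.2 * flipsEx C.L j (fun w =>
            ev (flipsFlip C.Φ j (flipsStep C.Φ j s a) w) (C.x j a.1)) := by
        simp only [flipsEx, flipsFlip, Function.update_self]
        congr 1
        refine Finset.sum_congr rfl fun a _ => ?_
        rw [← flipsEx_smul]
        congr 1
        funext w
        rw [flipsFlip_update C.Φ j j le_rfl]
      have h2 : ∀ a : Fin (C.L j + 1) × Bool,
          sgn a.2 * ev (flipsStep C.Φ j s a) (C.x j a.1) - ∑ i ∈ Finset.range j, η i ≤
          sgn a.2 * flipsEx C.L j (fun w =>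
            ev (flipsFlip C.Φ j (flipsStep C.Φ j s a) w) (C.x j a.1)) := by
        intro a
        have h3 := abs_sub_le_iff.1 (flips_close C j (flipsStep C.Φ j s a)
          (flips_step_mem C j s hs a) (C.x j a.1) (C.norm_x j a.1))
        unfold sgn
        split_ifs
        · linarith [h3.1, h3.2]
        · linarith [h3.1, h3.2]
      rw [h1]
      refine le_trans ?_ (flipsEx_avg_mono _ _ _ h2)
      have h4 := C.avg_gain j s hs
      have h5 : (((C.L j + 1) * 2 : ℕ) : ℝ)⁻¹ * ∑ a : Fin (C.L j + 1) × Bool,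
          (sgn a.2 * ev (flipsStep C.Φ j s a) (C.x j a.1) - ∑ i ∈ Finset.range j, η i) =
          (1 / 2) * (((C.L j + 1 : ℕ) : ℝ)⁻¹ * ∑ l, (ev (C.Φ j s l) (C.x j l) - ev s (C.x j l)))
            - ∑ i ∈ Finset.range j, η i := by
        rw [flipsEx_avg]
        simp only [flipsStep, sgn, if_true, Bool.false_eq_true, if_false]
        rw [Finset.mul_sum, Finset.mul_sum, Finset.mul_sum]
        have h6 : ∑ i ∈ Finset.range j, η i = ∑ _l : Fin (C.L j + 1),
            ((C.L j + 1 : ℕ) : ℝ)⁻¹ * ∑ i ∈ Finset.range j, η i := by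
          simp only [Finset.sum_const, Finset.card_univ, Fintype.card_fin, nsmul_eq_mul]
          push_cast
          have : ((C.L j : ℝ) + 1) ≠ 0 := by positivity
          field_simp
        conv_rhs => rw [h6, ← Finset.sum_sub_distrib]
        refine Finset.sum_congr rfl fun l _ => ?_
        ring
      rw [h5]
      linarith

end

/-- M9: the random flips. For each `n` there is a probability measure `ν` on `Coord L` invariant
under flipping the sign of any coordinate `i < n`, and a measurable map `κ` into `V 0`, such that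
the correlation of the `j`-th sign with `ev (κ ω) (x j (ω j).1)` is at least
`c/2 - ∑_{i<j} η i` for all `j < n`. -/
theorem exists_flips {X : Type*} [NormedAddCommGroup X] [NormedSpace ℝ X] {S : Type*}
    [TopologicalSpace S] [MeasurableSpace S] [BorelSpace S]
    (ev : S → X →L[ℝ] ℝ) (hev : ∀ x, Continuous fun s => ev s x) (R : ℝ) (hR : ∀ s, ‖ev s‖ ≤ R)
    (c : ℝ) (η : ℕ → ℝ) (hη : ∀ j, 0 ≤ η j)
    (C : FlipChain ev c η) (n : ℕ) :
    ∃ (ν : Measure (Coord C.L)) (κ : Coord C.L → S), IsProbabilityMeasure ν ∧ Measurable κ ∧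
      (∀ i < n, ν.map (flipSign i) = ν) ∧
      ∀ j < n, c / 2 - ∑ i ∈ Finset.range j, η i ≤
        ∫ ω, sgn (ω j).2 * ev (κ ω) (C.x j (ω j).1) ∂ν := by
  obtain ⟨s, hs⟩ := C.ne n
  obtain ⟨ι, _, _, p, hp⟩ := flipsEx_points C.L n
  have hcard : (Fintype.card ι : ENNReal) ≠ 0 := by
    have := Fintype.card_pos (α := ι)
    exact_mod_cast this.ne'
  have hcard' : (Fintype.card ι : ENNReal) ≠ ⊤ := ENNReal.natCast_ne_top _
  set ν : Measure (Coord C.L) := (Fintype.card ι : ENNReal)⁻¹ • ∑ i, Measure.dirac (p i) with hν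
  have hprob : IsProbabilityMeasure ν := by
    constructor
    rw [hν]
    simp [ENNReal.inv_mul_cancel hcard hcard']
  have hint : ∀ f : Coord C.L → ℝ, ∫ w, f w ∂ν = flipsEx C.L n f := by
    intro f
    rw [← hp f, hν, integral_smul_measure, integral_finsetSum_measure]
    · simp
    · intro i _
      exact integrable_dirac (by simp)
  have hmeas_flip : ∀ i : ℕ, Measurable (flipSign i : Coord C.L → Coord C.L) := by
    intro i
    rw [measurable_pi_iff]
    intro j
    unfold flipSign
    by_cases h : j = i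
    · subst h
      simp only [Function.update_self]
      exact ((measurable_fst.comp (measurable_pi_apply j))).prodMk
        ((measurable_of_finite (fun b : Bool => !b)).comp
          (measurable_snd.comp (measurable_pi_apply j)))
    · simp only [Function.update_of_ne h]
      exact measurable_pi_apply j
  refine ⟨ν, flipsFlip C.Φ n s, hprob, flipsFlip_measurable C.Φ n s, ?_, ?_⟩
  · intro i hi
    ext A hA
    rw [Measure.map_apply (hmeas_flip i) hA]
    have h1 : ν.real (flipSign i ⁻¹' A) = ν.real A := by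
      rw [← integral_indicator_one hA, ← integral_indicator_one (hmeas_flip i hA), hint, hint]
      exact flipsEx_inv C.L n i hi (A.indicator 1)
    rw [Measure.real, Measure.real, ENNReal.toReal_eq_toReal_iff' (measure_ne_top _ _)
      (measure_ne_top _ _)] at h1
    exact h1
  · intro j hj
    rw [hint]
    exact flips_gain C n s hs j hj

end Pool.Agent.H.MP_36cdb9_an.U
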