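import Pool.Agent.H.MP_36cdb9_an.U.Assembly

set_option autoImplicit false

open MeasureTheory

namespace Pool.Agent.H.MP_36cdb9_an.U

/-- The set `K` as a type, to be given the topology of pointwise convergence. -/
def MainKS.{u} {X : Type u} [NormedAddCommGroup X] [NormedSpace ℝ X] (K : Set (X →L[ℝ] ℝ)) : Type u :=
  {f : X →L[ℝ] ℝ // f ∈ K}

section aux

variable {X : Type*} [NormedAddCommGroup X] [NormedSpace ℝ X] (K : Set (X →L[ℝ] ℝ))

instance mainAuxTop : TopologicalSpace (MainKS K) :=
  TopologicalSpace.induced (fun (f : MainKS K) (x : X) => f.1 x) inferInstance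

instance mainAuxMeas : MeasurableSpace (MainKS K) := borel _

instance mainAuxBorel : BorelSpace (MainKS K) := ⟨rfl⟩

theorem main_aux_continuous (x : X) : Continuous fun s : MainKS K => s.1 x := by
  have h : Continuous fun (s : MainKS K) (x : X) => s.1 x := continuous_induced_dom
  exact (continuous_apply x).comp h

theorem main_aux_compact
    (hK : @IsCompact (X →L[ℝ] ℝ)
      (TopologicalSpace.induced (fun (f : X →L[ℝ] ℝ) (x : X) => f x) inferInstance) K) :
    CompactSpace (MainKS K) := by
  let τ : TopologicalSpace (X →L[ℝ] ℝ) :=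
    TopologicalSpace.induced (fun (f : X →L[ℝ] ℝ) (x : X) => f x) inferInstance
  have h1 : @CompactSpace {f : X →L[ℝ] ℝ // f ∈ K} (@instTopologicalSpaceSubtype _ _ τ) :=
    (@isCompact_iff_compactSpace _ τ K).1 hK
  have h2 : (@instTopologicalSpaceSubtype _ (fun f => f ∈ K) τ) = mainAuxTop K := by
    change TopologicalSpace.induced _ (TopologicalSpace.induced _ _) = _
    rw [induced_compose]
    rfl
  rw [h2] at h1
  exact h1

theorem main_aux_polish [TopologicalSpace.SeparableSpace X] (hC : CompactSpace (MainKS K)) :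
    PolishSpace (MainKS K) := by
  have hcont : Continuous fun (f : MainKS K) (n : ℕ) => f.1 (TopologicalSpace.denseSeq X n) :=
    continuous_pi fun n => main_aux_continuous K _
  have hinj : Function.Injective
      fun (f : MainKS K) (n : ℕ) => f.1 (TopologicalSpace.denseSeq X n) := by
    intro f g hfg
    apply Subtype.ext
    apply ContinuousLinearMap.ext
    intro x
    have h := (TopologicalSpace.denseRange_denseSeq X).equalizer f.1.continuous g.1.continuous
      (by funext n; exact congrFun hfg n)
    exact congrFun h x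
  exact (hcont.isClosedEmbedding hinj).polishSpace

theorem main_aux_bound [CompleteSpace X] (hC : CompactSpace (MainKS K)) :
    ∃ R : ℝ, ∀ s : MainKS K, ‖s.1‖ ≤ R := by
  apply banach_steinhaus
  intro x
  have h := (isCompact_range (main_aux_continuous K x)).isBounded
  obtain ⟨C, hC⟩ := h.exists_norm_le
  exact ⟨C, fun i => hC _ ⟨i, rfl⟩⟩

end aux

/-- The frozen statement, for the pointwise topology on the dual. -/
theorem main {X : Type*} [NormedAddCommGroup X] [NormedSpace ℝ X] [CompleteSpace X]
    [TopologicalSpace.SeparableSpace X] (hno : ¬ HasL1 X) (K : Set (X →L[ℝ] ℝ))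
    (hK : @IsCompact (X →L[ℝ] ℝ)
      (TopologicalSpace.induced (fun (f : X →L[ℝ] ℝ) (x : X) => f x) inferInstance) K)
    (hne : K.Nonempty) (ε : ℝ) (hε : 0 < ε) :
    ∃ f ∈ K, f ∉ closure (convexHull ℝ (K \ Metric.ball f ε)) := by
  by_contra hcon
  push Not at hcon
  have hC : CompactSpace (MainKS K) := main_aux_compact K hK
  have hP : PolishSpace (MainKS K) := main_aux_polish K hC
  obtain ⟨R, hR⟩ := main_aux_bound K hC
  obtain ⟨f₀, hf₀⟩ := hne
  have himg : (fun s : MainKS K => s.1) '' Set.univ = K := by
    ext f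
    constructor
    · rintro ⟨s, -, rfl⟩
      exact s.2
    · intro hf
      exact ⟨⟨f, hf⟩, trivial, rfl⟩
  refine hno (main_abstract (S := MainKS K) (fun s => s.1) (main_aux_continuous K) R hR Set.univ
    isClosed_univ ⟨⟨f₀, hf₀⟩, trivial⟩ ε hε ?_)
  intro s _
  rw [himg]
  exact hcon s.1 s.2

end Pool.Agent.H.MP_36cdb9_an.U
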